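import Pool.Agent.BSH.Stmts

/-! Row CHR of squad BSH: chain rule for the change of coordinates. -/

set_option autoImplicit false

open MvPolynomial

namespace Pool.Agent.BSH.H55

variable {E : Type} [Field E] (k r d : ℕ) (a : ℕ → ℕ → E)

/-- the polynomial added to the variable `k + j` -/
noncomputable def cor (j : ℕ) : MvPolynomial ℕ E :=
  ∑ m ∈ Finset.range k, C (a m j) * X m ^ d

theorem shf_X (i : ℕ) : shf k r d a (X i) =
    if k ≤ i ∧ i < k + r then X i + cor k d a (i - k) else X i := by
  simp only [shf, aeval_X, cor]

theorem sub_X (i : ℕ) : sub k r d a (X i) =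
    if k ≤ i ∧ i < k + r then cor k d a (i - k) else X i := by
  simp only [sub, aeval_X, cor]

theorem pderiv_cor_ge (i j : ℕ) (hi : k ≤ i) : pderiv i (cor k d a j) = 0 := by
  unfold cor
  rw [map_sum]
  apply Finset.sum_eq_zero
  intro m hm
  have hm' := Finset.mem_range.1 hm
  have h1 : pderiv i (X m : MvPolynomial ℕ E) = 0 := pderiv_X_of_ne (by omega)
  rw [pderiv_mul, pderiv_C, pderiv_pow, h1]
  simp

theorem pderiv_cor_lt (i j : ℕ) (hi : i < k) :
    pderiv i (cor k d a j) = C (a i j) * (C (d : E) * X i ^ (d - 1)) := by
  unfold cor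
  rw [map_sum, Finset.sum_eq_single i]
  · rw [pderiv_mul, pderiv_C, pderiv_pow, pderiv_X_self, map_natCast]
    ring
  · intro m _ hm
    have h1 : pderiv i (X m : MvPolynomial ℕ E) = 0 := pderiv_X_of_ne hm
    rw [pderiv_mul, pderiv_C, pderiv_pow, h1]
    simp
  · intro h
    exact absurd (Finset.mem_range.2 hi) h

theorem one (j : ℕ) (F : MvPolynomial ℕ E) :
    pderiv (k + j) (shf k r d a F) = shf k r d a (pderiv (k + j) F) := by
  induction F using MvPolynomial.induction_on with
  | C c =>
    have h1 : shf k r d a (C c) = C c := by
      rw [← MvPolynomial.algebraMap_eq]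
      exact (shf k r d a).commutes c
    rw [h1, pderiv_C, map_zero]
  | add p q hp hq => rw [map_add, map_add, map_add, map_add, hp, hq]
  | mul_X p i hp =>
    have hX : pderiv (k + j) (shf k r d a (X i)) =
        shf k r d a (pderiv (k + j) (X i)) := by
      by_cases hij : i = k + j
      · subst hij
        rw [pderiv_X_self, map_one, shf_X]
        by_cases h : k ≤ k + j ∧ k + j < k + r
        · rw [if_pos h, map_add, pderiv_X_self, pderiv_cor_ge k d a _ _ (by omega), add_zero]
        · rw [if_neg h, pderiv_X_self]
      · rw [pderiv_X_of_ne hij, map_zero, shf_X]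
        by_cases h : k ≤ i ∧ i < k + r
        · rw [if_pos h, map_add, pderiv_X_of_ne hij, pderiv_cor_ge k d a _ _ (by omega), add_zero]
        · rw [if_neg h, pderiv_X_of_ne hij]
    rw [map_mul, pderiv_mul, hp, hX, pderiv_mul, map_add, map_mul, map_mul]

theorem zz_shf (i : ℕ) (F : MvPolynomial ℕ E) : zz k r a (shf k r d a F) i =
    ∑ j ∈ Finset.range r, C (a i j) * shf k r d a (pderiv (k + j) F) := by
  unfold zz
  exact Finset.sum_congr rfl fun j _ => by rw [one]

theorem two (i : ℕ) (hi : i < k) (F : MvPolynomial ℕ E) :
    yy k r d a (shf k r d a F) i = shf k r d a (pderiv i F) := by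
  induction F using MvPolynomial.induction_on with
  | C c =>
    have h1 : shf k r d a (C c) = C c := by
      rw [← MvPolynomial.algebraMap_eq]
      exact (shf k r d a).commutes c
    unfold yy
    rw [zz_shf, h1, pderiv_C, map_zero, Finset.sum_eq_zero]
    · ring
    · intro j _
      rw [pderiv_C, map_zero, mul_zero]
  | add p q hp hq =>
    unfold yy at hp hq ⊢
    rw [zz_shf] at hp hq ⊢
    simp only [map_add, mul_add, Finset.sum_add_distrib]
    rw [← hp, ← hq]
    ring
  | mul_X p v hp =>
    have hX : yy k r d a (shf k r d a (X v)) i = shf k r d a (pderiv i (X v)) := by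
      unfold yy
      rw [zz_shf]
      by_cases h : k ≤ v ∧ v < k + r
      · have hvi : v ≠ i := by omega
        have hs : ∑ j ∈ Finset.range r, C (a i j) * shf k r d a (pderiv (k + j) (X v)) =
            C (a i (v - k)) := by
          rw [Finset.sum_eq_single (v - k)]
          · have e1 : k + (v - k) = v := by omega
            rw [e1, pderiv_X_self, map_one, mul_one]
          · intro j _ hj
            rw [pderiv_X_of_ne (by omega), map_zero, mul_zero]
          · intro hn
            exact absurd (Finset.mem_range.2 (by omega)) hn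
        rw [hs, shf_X, if_pos h, map_add, pderiv_X_of_ne hvi, map_zero,
          pderiv_cor_lt k d a i _ hi]
        ring
      · have hs : ∑ j ∈ Finset.range r, C (a i j) * shf k r d a (pderiv (k + j) (X v)) = 0 := by
          apply Finset.sum_eq_zero
          intro j hj
          have hj' := Finset.mem_range.1 hj
          rw [pderiv_X_of_ne (by omega), map_zero, mul_zero]
        rw [hs, shf_X, if_neg h, mul_zero, sub_zero]
        by_cases hvi : v = i
        · subst hvi
          rw [pderiv_X_self, map_one]
        · rw [pderiv_X_of_ne hvi, map_zero]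
    unfold yy at hp hX ⊢
    rw [zz_shf] at hp hX ⊢
    have e1 : ∑ j ∈ Finset.range r, C (a i j) * shf k r d a (pderiv (k + j) (p * X v)) =
        (∑ j ∈ Finset.range r, C (a i j) * shf k r d a (pderiv (k + j) p)) * shf k r d a (X v) +
        (∑ j ∈ Finset.range r, C (a i j) * shf k r d a (pderiv (k + j) (X v))) *
          shf k r d a p := by
      rw [Finset.sum_mul, Finset.sum_mul, ← Finset.sum_add_distrib]
      refine Finset.sum_congr rfl fun j _ => ?_
      rw [pderiv_mul, map_add, map_mul, map_mul]
      ring
    rw [e1, map_mul, pderiv_mul, pderiv_mul, map_add, map_mul, map_mul, ← hp, ← hX]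
    ring

/-- the inverse of `shf` -/
noncomputable def ishf : MvPolynomial ℕ E →ₐ[E] MvPolynomial ℕ E :=
  aeval fun i => if k ≤ i ∧ i < k + r then X i - cor k d a (i - k) else X i

theorem ishf_cor (j : ℕ) : ishf k r d a (cor k d a j) = cor k d a j := by
  unfold cor
  rw [map_sum]
  refine Finset.sum_congr rfl fun m hm => ?_
  have hm' := Finset.mem_range.1 hm
  have h1 : ishf k r d a (X m) = X m := by
    simp only [ishf, aeval_X]
    rw [if_neg (by omega)]
  have h2 : ishf k r d a (C (a m j)) = C (a m j) := by
    rw [← MvPolynomial.algebraMap_eq]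
    exact (ishf k r d a).commutes _
  rw [map_mul, map_pow, h1, h2]

theorem ishf_shf (F : MvPolynomial ℕ E) : ishf k r d a (shf k r d a F) = F := by
  have h : (ishf k r d a).comp (shf k r d a) = AlgHom.id E (MvPolynomial ℕ E) := by
    apply MvPolynomial.algHom_ext
    intro i
    rw [AlgHom.comp_apply, shf_X, AlgHom.id_apply]
    by_cases h : k ≤ i ∧ i < k + r
    · rw [if_pos h, map_add, ishf_cor]
      simp only [ishf, aeval_X]
      rw [if_pos h, sub_add_cancel]
    · rw [if_neg h]
      simp only [ishf, aeval_X]
      rw [if_neg h]
  exact congrArg (fun φ => φ F) h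

theorem four (F : MvPolynomial ℕ E) :
    (th E k r (shf k r d a F)).coeff 0 = sub k r d a F := by
  have h : ((Polynomial.constantCoeff (R := MvPolynomial ℕ E)).comp
      (th E k r : MvPolynomial ℕ E →+* Polynomial (MvPolynomial ℕ E))).comp
      (shf k r d a : MvPolynomial ℕ E →+* MvPolynomial ℕ E) =
      (sub k r d a : MvPolynomial ℕ E →+* MvPolynomial ℕ E) := by
    apply MvPolynomial.ringHom_ext
    · intro c
      have h1 : shf k r d a (C c) = C c := by
        rw [← MvPolynomial.algebraMap_eq]
        exact (shf k r d a).commutes c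
      have h2 : sub k r d a (C c) = C c := by
        rw [← MvPolynomial.algebraMap_eq]
        exact (sub k r d a).commutes c
      have h3 : th E k r (C c) = Polynomial.C (C c) := by
        rw [← MvPolynomial.algebraMap_eq]
        exact (th E k r).commutes c
      simp only [RingHom.comp_apply, RingHom.coe_coe, h1, h2, h3, Polynomial.constantCoeff_apply,
        Polynomial.coeff_C_zero]
    · intro i
      simp only [RingHom.comp_apply, RingHom.coe_coe, shf_X, sub_X, Polynomial.constantCoeff_apply]
      by_cases h : k ≤ i ∧ i < k + r
      · rw [if_pos h, if_pos h, map_add, Polynomial.coeff_add]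
        have h1 : (th E k r (X i)).coeff 0 = 0 := by
          simp only [th, aeval_X]
          rw [if_pos h, Polynomial.coeff_X_mul_zero]
        have h2 : th E k r (cor k d a (i - k)) = Polynomial.C (cor k d a (i - k)) := by
          unfold cor
          rw [map_sum, map_sum]
          refine Finset.sum_congr rfl fun m hm => ?_
          have hm' := Finset.mem_range.1 hm
          have h3 : th E k r (C (a m (i - k))) = Polynomial.C (C (a m (i - k))) := by
            rw [← MvPolynomial.algebraMap_eq]
            exact (th E k r).commutes _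
          have h4 : th E k r (X m) = Polynomial.C (X m) := by
            simp only [th, aeval_X]
            rw [if_neg (by omega)]
          rw [map_mul, map_pow, h3, h4, map_mul, map_pow]
        rw [h1, h2, Polynomial.coeff_C_zero, zero_add]
      · rw [if_neg h, if_neg h]
        simp only [th, aeval_X]
        rw [if_neg h, Polynomial.coeff_C_zero]
  exact congrArg (fun φ => φ F) h

theorem chr : ChrStmt := by
  intro E _ k r d a F
  refine ⟨fun j _ => one k r d a j F, fun i hi => two k r d a i hi F, fun hF h0 => hF ?_,
    fun h => ?_⟩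
  · rw [← ishf_shf k r d a F, h0, map_zero]
  · rw [four, h]

end Pool.Agent.BSH.H55
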